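import Pool.Agent.P8H4.PX.Adm
import Pool.Agent.P8H4.PM.Par3

/-!
# The parity conjecture for a positive proportion of all elliptic curves over every number field, over
towers of extensions

Let `F` be any number field; all elliptic curves `E : y² = x³ + A x + B` over `F` (minimal pairs `(A, B)`
of integers of `F`) are ordered by the height `max_σ max (4 |σ A|³, 27 |σ B|²)`.

Theorem.  Let `K / F` be a Galois extension of 2-power degree whose group is not cyclic, not ramified at
the primes above six and at the infinite places.  Then for a positive proportion of all `E / F` the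
parity conjecture `(-1) ^ rk E(L) = w(E / L)` holds, unconditionally, over ALL Galois extensions `L / F`
which contain `K` with `[L : K]` odd (nothing is assumed on the ramification in `L / K`, and the rank of
`E(L)` can be positive).  More precisely, for every `T` there is a finite set `S` of prime numbers such
that for a positive proportion of all `E` the cubic is irreducible modulo all primes of `F` of residue
characteristic at most `T` except three, and the same holds with `K` replaced by ANY Galois extension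
`M / F` of 2-power degree whose group is not cyclic such that the primes above `S` split completely in
`M`, the primes which ramify in `M` do not divide six and the cubic is irreducible modulo them, and the
real places of `F` which become complex in `M` have `4 A³ + 27 B² > 0`.

The proof.  (1) For a positive proportion the 2-Selmer group is trivial over `F` and over all these `M`
(`MP_7cad78_nt.RankZeroInTwoExtensions`: project PF with prescribed reductions, and the cohomology of
unramified extensions, project UL).  (2) So `rk E(M) = 0`; the rational representation of the group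
`Gal(L / M)` of odd order on `E(L) ⊗ ℚ` has no nonzero fixed vectors, hence its dimension is even.
(3) The places of bad reduction are not ramified in `M`, so their decomposition groups in
`Gal(M / F)` are cyclic and not the whole group.  A Sylow 2-subgroup of `Gal(L / F)` maps onto
`Gal(M / F)`; it fixes no place of `L` with bad reduction, so the number of the places with local root
number `-1` is even.  The number of the infinite places of `L` is even as `4 ∣ [M : F]`.
-/

set_option autoImplicit false

open Filter NumberField IsDedekindDomain Polynomial WeierstrassCurve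

namespace Pool.Agent.Results.MP_02f36d_nt.ParityPositiveProportion

open scoped Classical

section family

variable (F : Type) [Field F] [NumberField F]

/-- The elliptic curves over `F`: pairs of integers `(A, B)` with `4 A ^ 3 + 27 B ^ 2 ≠ 0` for which no
nonzero prime ideal `𝔭` satisfies both `𝔭 ^ 4 ∣ A` and `𝔭 ^ 6 ∣ B`. -/
def Family : Set (𝓞 F × 𝓞 F) :=
  {p | 4 * p.1 ^ 3 + 27 * p.2 ^ 2 ≠ 0 ∧
    ∀ 𝔭 : Ideal (𝓞 F), 𝔭.IsPrime → 𝔭 ≠ ⊥ → ¬ (p.1 ∈ 𝔭 ^ 4 ∧ p.2 ∈ 𝔭 ^ 6)}

variable {F}

/-- The height `max_σ max (4 |σ A|³, 27 |σ B|²)`, over the embeddings `σ : F → ℂ`. -/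
noncomputable def height (p : 𝓞 F × 𝓞 F) : ℝ :=
  ⨆ σ : F →+* ℂ, max (4 * ‖σ (p.1 : F)‖ ^ 3) (27 * ‖σ (p.2 : F)‖ ^ 2)

variable (F) in
/-- The curves of height at most `X`. -/
def UpTo (X : ℝ) : Set (𝓞 F × 𝓞 F) := {p ∈ Family F | height p ≤ X}

/-- The curve `y ^ 2 = x ^ 3 + A x + B` over the extension `L` of `F`. -/
def curve (L : Type) [Field L] [Algebra F L] (p : 𝓞 F × 𝓞 F) : WeierstrassCurve L :=
  ⟨0, 0, 0, algebraMap F L (p.1 : F), algebraMap F L (p.2 : F)⟩

end family

section root

variable {L : Type} [Field L] [NumberField L]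

/-- The coefficients of the equation are integral at the place `v`. -/
structure IntegralAt (v : HeightOneSpectrum (𝓞 L)) (W : WeierstrassCurve L) : Prop where
  a₁ : v.valuation L W.a₁ ≤ 1
  a₂ : v.valuation L W.a₂ ≤ 1
  a₃ : v.valuation L W.a₃ ≤ 1
  a₄ : v.valuation L W.a₄ ≤ 1
  a₆ : v.valuation L W.a₆ ≤ 1

/-- Good reduction at `v`: there is a Weierstrass equation with coefficients integral at `v` whose
discriminant is a unit at `v`. -/
def GoodReduction (v : HeightOneSpectrum (𝓞 L)) (W : WeierstrassCurve L) : Prop :=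
  ∃ C : WeierstrassCurve.VariableChange L, IntegralAt v (C • W) ∧ v.valuation L (C • W).Δ = 1

/-- The global root number: the product of the local root numbers at all places; it is `-1` at
every infinite place. -/
noncomputable def rootNumber (w : HeightOneSpectrum (𝓞 L) → ℤ) : ℤ :=
  (-1) ^ Nat.card (InfinitePlace L) * ∏ᶠ v, w v

/-- The properties of the local root numbers `w(E / L_v)` at the places `v` of `L`, for an elliptic
curve `E` over the subfield `F`, which we use: they are signs, `1` for good reduction, and the same for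
conjugate places (for which the pairs `(L_v, E)` are isomorphic). -/
structure LocalRootNumbers (F : Type) [Field F] [NumberField F] [Algebra F L] (p : 𝓞 F × 𝓞 F)
    (w : HeightOneSpectrum (𝓞 L) → ℤ) : Prop where
  sign : ∀ v, w v = 1 ∨ w v = -1
  good : ∀ v, GoodReduction v (curve L p) → w v = 1
  conj : ∀ (σ : L ≃ₐ[F] L) (v v' : HeightOneSpectrum (𝓞 L)),
    (∀ x : L, v'.valuation L x = v.valuation L (σ x)) → w v' = w v

variable (L) in
/-- The parity conjecture over `L` for the curve `p` over `F`: `E(L)` is finitely generated, and for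
every system `w` of local root numbers almost all `w v` are `1` and `(-1) ^ rk E(L) = w(E / L)`;
moreover the rank is even and the root number is `1`. -/
structure ParityHolds (F : Type) [Field F] [NumberField F] [Algebra F L] (p : 𝓞 F × 𝓞 F) :
    Prop where
  fg : AddGroup.FG (curve L p).toAffine.Point
  even : Even (Module.finrank ℤ (curve L p).toAffine.Point)
  parity : ∀ w : HeightOneSpectrum (𝓞 L) → ℤ, LocalRootNumbers F p w →
    {v | w v ≠ 1}.Finite ∧ rootNumber w = 1 ∧
      (-1) ^ Module.finrank ℤ (curve L p).toAffine.Point = rootNumber w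

end root

section cond

variable {F : Type} [Field F] [NumberField F] {M : Type} [Field M] [NumberField M] [Algebra F M]

/-- The cubic `x ^ 3 + A x + B` modulo the prime `v`. -/
noncomputable def cubic (p : 𝓞 F × 𝓞 F) (v : HeightOneSpectrum (𝓞 F)) : (𝓞 F ⧸ v.asIdeal)[X] :=
  X ^ 3 + C (Ideal.Quotient.mk v.asIdeal p.1) * X + C (Ideal.Quotient.mk v.asIdeal p.2)

variable (F) in
/-- The prime `w` of `M` is ramified over `F`: the prime `v` below satisfies `v 𝓞_M ⊂ w²`. -/
def Ramified (w : HeightOneSpectrum (𝓞 M)) : Prop :=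
  Ideal.map (algebraMap (𝓞 F) (𝓞 M)) (w.asIdeal.under (𝓞 F)) ≤ w.asIdeal ^ 2

variable (F M) in
/-- The extension `M / F` is not ramified at the primes above six and at the infinite places. -/
structure Tame : Prop where
  six : ∀ w : HeightOneSpectrum (𝓞 M), Ramified F w → (6 : 𝓞 M) ∉ w.asIdeal
  real : ∀ j : M →+* ℂ, ComplexEmbedding.IsReal (j.comp (algebraMap F M)) →
    ComplexEmbedding.IsReal j

variable (M) in
/-- The conditions for the extension `M / F` and the curve `(A, B)`: the primes above `S` split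
completely in `M` (they are not ramified and the norms of the primes above are the same); the primes
that ramify in `M` do not divide six and the cubic is irreducible modulo them; at the real places of
`F` which become complex in `M` the number `4 A ^ 3 + 27 B ^ 2` is positive. -/
structure Admissible (S : Finset ℕ) (p : 𝓞 F × 𝓞 F) : Prop where
  split : ∀ w : HeightOneSpectrum (𝓞 M), (∃ q ∈ S, (q : 𝓞 M) ∈ w.asIdeal) →
    ¬ Ramified F w ∧ Ideal.absNorm w.asIdeal = Ideal.absNorm (w.asIdeal.under (𝓞 F))
  ramified : ∀ w : HeightOneSpectrum (𝓞 M), Ramified F w → (6 : 𝓞 M) ∉ w.asIdeal ∧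
    Irreducible (cubic p (w.under (𝓞 F)))
  real : ∀ j : M →+* ℂ, ComplexEmbedding.IsReal (j.comp (algebraMap F M)) →
    ComplexEmbedding.IsReal j ∨
      0 < (j (algebraMap F M ((4 * p.1 ^ 3 + 27 * p.2 ^ 2 : 𝓞 F) : F))).re

end cond

section proof

open Pool.Agent.N783.PF (Crv Good)
open Pool.Agent.P8H4.PX (Wp ExtP Adm p1_ext fin1x Wp_Δ disc_ne)
open Pool.Agent.P8H4.PM (parity_core four_dvd not_fixed)

theorem crv_iff {F : Type} [Field F] [NumberField F] (X : ℝ) (p : 𝓞 F × 𝓞 F) :
    Crv X p ↔ p ∈ UpTo F X := by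
  have hb : BddAbove (Set.range fun σ : F →+* ℂ =>
      max (4 * ‖σ (p.1 : F)‖ ^ 3) (27 * ‖σ (p.2 : F)‖ ^ 2)) := Set.Finite.bddAbove (Set.finite_range _)
  constructor
  · rintro ⟨h1, h2, h3⟩
    refine ⟨⟨h1, h2⟩, ciSup_le fun σ => max_le (h3 σ).1 (h3 σ).2⟩
  · rintro ⟨⟨h1, h2⟩, h3⟩
    refine ⟨h1, h2, fun σ => ?_⟩
    have h4 := (le_ciSup hb σ).trans h3
    exact ⟨(le_max_left _ _).trans h4, (le_max_right _ _).trans h4⟩

variable {F M L : Type} [Field F] [NumberField F] [Field M] [NumberField M] [Algebra F M]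
  [Field L] [NumberField L] [Algebra F L] [Algebra M L] [IsScalarTower F M L]

omit [NumberField F] [NumberField L] in
lemma curve_eq (p : 𝓞 F × 𝓞 F) :
    ((Wp p).baseChange F).baseChange L = curve L p := by
  unfold WeierstrassCurve.baseChange Wp curve
  ext <;> simp

lemma good_of {p : 𝓞 F × 𝓞 F} (v : HeightOneSpectrum (𝓞 L))
    (h : (Wp p).Δ ∉ v.asIdeal.under (𝓞 F)) : GoodReduction v (curve L p) := by
  rw [← curve_eq]
  have key : ∀ a : 𝓞 F, algebraMap F L (algebraMap (𝓞 F) F a) =
      algebraMap (𝓞 L) L (algebraMap (𝓞 F) (𝓞 L) a) := fun a => rfl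
  have hle : ∀ a : 𝓞 F, v.valuation L (algebraMap F L (algebraMap (𝓞 F) F a)) ≤ 1 := by
    intro a
    rw [key]
    exact v.valuation_le_one _
  refine ⟨1, ?_, ?_⟩
  · rw [one_smul]
    exact ⟨hle (Wp p).a₁, hle (Wp p).a₂, hle (Wp p).a₃, hle (Wp p).a₄, hle (Wp p).a₆⟩
  · rw [one_smul, Pool.Agent.P8H4.PM.bcΔ, Pool.Agent.P8H4.PM.bcΔ]
    refine le_antisymm (hle _) (not_lt.1 fun h2 => h ?_)
    rw [key, HeightOneSpectrum.valuation_lt_one_iff_mem] at h2
    exact h2

/-- the primes with bad reduction are not ramified -/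
lemma unr_of {S : Finset ℕ} {p : 𝓞 F × 𝓞 F} (ha : Admissible M S p)
    (w : HeightOneSpectrum (𝓞 M)) (hw : (Wp p).Δ ∈ w.asIdeal.under (𝓞 F)) : ¬ Ramified F w := by
  intro hR
  obtain ⟨h6, hirr⟩ := ha.ramified w hR
  set v := w.under (𝓞 F) with hv
  have hpr := v.isPrime
  have h6v : (6 : 𝓞 F) ∉ v.asIdeal := by
    intro h
    apply h6
    have h1 : (6 : 𝓞 F) ∈ w.asIdeal.under (𝓞 F) := h
    rw [Ideal.mem_comap, map_ofNat] at h1
    exact h1
  have h2v : (2 : 𝓞 F) ∉ v.asIdeal := by
    intro h
    apply h6v
    have : (6 : 𝓞 F) = 3 * 2 := by norm_num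
    rw [this]
    exact Ideal.mul_mem_left _ _ h
  have hmax : v.asIdeal.IsMaximal := v.isMaximal
  let _ : Field (𝓞 F ⧸ v.asIdeal) := Ideal.Quotient.field _
  have h6k : (6 : 𝓞 F ⧸ v.asIdeal) ≠ 0 := by
    intro h
    apply h6v
    rw [← Ideal.Quotient.eq_zero_iff_mem, map_ofNat]
    exact h
  have h1 := disc_ne (κ := 𝓞 F ⧸ v.asIdeal) h6k hirr
  apply h1
  have h3 : -16 * (4 * p.1 ^ 3 + 27 * p.2 ^ 2) ∈ v.asIdeal := by
    rw [← Wp_Δ]
    exact hw
  have h16 : (-16 : 𝓞 F) ∉ v.asIdeal := by
    intro h
    apply h2v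
    have e : (-16 : 𝓞 F) = -(2 ^ 4) := by norm_num
    rw [e, neg_mem_iff] at h
    exact hpr.mem_of_pow_mem 4 h
  have h4 := (hpr.mem_or_mem h3).resolve_left h16
  rw [← Ideal.Quotient.eq_zero_iff_mem] at h4
  simp only [map_add, map_mul, map_pow, map_ofNat] at h4
  exact h4

lemma parity_of {S : Finset ℕ} {T : ℕ} {X : ℝ} {p : 𝓞 F × 𝓞 F} (hc : Crv X p) (hg : Good p)
    (hx : ExtP S T p) [IsGalois F M] (m : ℕ) (hm : Module.finrank F M = 2 ^ m)
    (hcyc : ¬ IsCyclic Gal(M/F)) (ha : Admissible M S p) [IsGalois F L]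
    (hodd : Odd (Module.finrank M L)) : ParityHolds L F p := by
  have hP := p1_ext hm hc.disc hg hx ⟨ha.split, ha.ramified, ha.real⟩
  have hΔ : (Wp p).Δ ≠ 0 := by
    rw [Wp_Δ]
    exact mul_ne_zero (by norm_num) hc.disc
  have h2m : 2 ≤ m := four_dvd hm hcyc
  obtain ⟨h1, h2, h3⟩ := parity_core (k := F) (F := M) (K := L) (by omega) hm hodd hΔ hP
    (Or.inl (by rw [hm]; exact pow_dvd_pow 2 h2m))
    (fun v hv => not_fixed hcyc v (unr_of ha v hv))
  rw [curve_eq] at h1 h2
  refine ⟨h1, h2, fun w hw => ?_⟩
  obtain ⟨h4, h5⟩ := h3 w hw.sign (fun v hv => hw.good v (good_of v hv)) hw.conj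
  have h6 : rootNumber w = 1 := h5
  refine ⟨h4, h6, ?_⟩
  rw [h6]
  exact h2.neg_one_pow

end proof

/-- **Main theorem.** Let `K / F` be a Galois extension of number fields of degree `2 ^ n` whose Galois
group is not cyclic, not ramified at the primes above six and at the infinite places, and `T` a natural
number.  There is a finite set `S` of prime numbers such that a positive proportion of all elliptic
curves over `F` of height at most `X` satisfies all of the following: the cubic is irreducible modulo
all primes of residue characteristic at most `T` except three; the parity conjecture holds over all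
Galois extensions `L / F` which contain `K` with `[L : K]` odd; and the same with `K` replaced by any
Galois extension `M / F` of 2-power degree whose group is not cyclic and which is admissible for `S` and
the curve. -/
theorem result (F K : Type) [Field F] [NumberField F] [Field K] [NumberField K] [Algebra F K]
    [IsGalois F K] (n : ℕ) (hn : Module.finrank F K = 2 ^ n) (hcyc : ¬ IsCyclic Gal(K/F))
    (hK : Tame F K) (T : ℕ) :
    (∀ X : ℝ, (UpTo F X).Finite) ∧
    ∃ S : Finset ℕ, (∀ q ∈ S, q.Prime ∧ T < q) ∧ ∃ c : ℝ, 0 < c ∧ ∀ᶠ X : ℝ in atTop,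
      0 < (UpTo F X).ncard ∧
      c * ((UpTo F X).ncard : ℝ) ≤ ({p ∈ UpTo F X |
        (∀ v : HeightOneSpectrum (𝓞 F), (∃ q : ℕ, q.Prime ∧ q ≤ T ∧ (q : 𝓞 F) ∈ v.asIdeal) →
          (3 : 𝓞 F) ∉ v.asIdeal → Irreducible (cubic p v)) ∧
        (∀ (L : Type) [Field L] [NumberField L] [Algebra F L] [Algebra K L] [IsScalarTower F K L]
          [IsGalois F L], Odd (Module.finrank K L) → ParityHolds L F p) ∧
        ∀ (M : Type) [Field M] [NumberField M] [Algebra F M] [IsGalois F M] (m : ℕ),
          Module.finrank F M = 2 ^ m → ¬ IsCyclic Gal(M/F) → Admissible M S p →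
          ∀ (L : Type) [Field L] [NumberField L] [Algebra F L] [Algebra M L] [IsScalarTower F M L]
            [IsGalois F L], Odd (Module.finrank M L) → ParityHolds L F p}.ncard : ℝ) := by
  have hset : ∀ X : ℝ, UpTo F X = {p : 𝓞 F × 𝓞 F | Pool.Agent.N783.PF.Crv X p} := by
    intro X
    ext p
    exact (crv_iff X p).symm
  obtain ⟨S, hS, c, hc, Y₀, h⟩ := Pool.Agent.P8H4.PX.fin1x F K (max T (discr K).natAbs)
  have hfin : ∀ X : ℝ, (UpTo F X).Finite := fun X => by
    rw [hset]
    exact (h X).1
  refine ⟨hfin, S, fun q hq => ⟨(hS q hq).1, (le_max_left _ _).trans_lt (hS q hq).2.1⟩, c, hc, ?_⟩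
  filter_upwards [eventually_ge_atTop Y₀] with X hX
  obtain ⟨h1, h2⟩ := (h X).2 hX
  rw [← hset] at h1 h2
  refine ⟨h1, h2.trans ?_⟩
  refine Nat.cast_le.2 (Set.ncard_le_ncard ?_ ((hfin X).subset fun p hp => hp.1))
  rintro p ⟨hp, hg, hx⟩
  refine ⟨(crv_iff X p).1 hp, ?_, ?_, ?_⟩
  · rintro v ⟨q, hq, hqT, hqv⟩ h3
    exact hx.irr v ⟨q, hq, hqT.trans (le_max_left _ _), hqv⟩ h3
  · intro L _ _ _ _ _ _ hodd
    have ha := Pool.Agent.P8H4.PX.adm_of (F := F) (M := K) hK.six hK.real (le_max_right _ _) hS hx
    exact parity_of (M := K) hp hg hx n hn hcyc ⟨ha.split, ha.ram, ha.real⟩ hodd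
  · intro M _ _ _ _ m hm hcycM ha L _ _ _ _ _ _ hodd
    exact parity_of (M := M) hp hg hx m hm hcycM ha hodd

end Pool.Agent.Results.MP_02f36d_nt.ParityPositiveProportion
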