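import Pool.Agent.P8H4.PK.Par
import Pool.Agent.P8H4.PM.Par2
import Pool.Agent.P8H4.PM.Up2
import Pool.Agent.P8H4.PM.UL
import Pool.Agent.P8H4.PX.NS

/-!
# The parity conjecture over Galois extensions `K / k` with a normal 2-complement

Let `k` be any number field, `E` an elliptic curve over `k` whose 2-Selmer group is trivial (`E(k)` is
finite of odd order and `Ш(E / k)` has no elements of order two), and `K / k` a Galois extension of even
degree whose Galois group has a normal 2-complement: there is a Galois extension `F / k` of degree `2 ^ n`,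
`n ≥ 1`, such that `K / F` is of odd degree.  (This is so for all nilpotent groups of even order, and for
all groups with a cyclic Sylow 2-subgroup.)

Theorem.  Assume that at each place of `k` where `E` has bad reduction `F / k` splits completely, or is
unramified and not inert with an odd Tamagawa number of `E`; that the places that ramify in `F` do not
divide `6 Δ` and the number of the points of `E` over the residue field is odd for them; and that `Δ < 0`
at all real places that ramify in `F`.  Then the parity conjecture holds for `E` over `K`,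
unconditionally: `(-1) ^ rk E(K) = w(E / K)`.  Nothing is assumed on the ramification or the splitting in
`K / F`, the rank of `E(K)` can be positive, and `k` and `K` can have real and complex places.  (If
`Gal(F / k)` is not cyclic no unramified place is inert, so the only conditions are the odd Tamagawa
numbers and the conditions at the ramified places.)

The proof.  The 2-Selmer group over `F` is trivial: otherwise it has a nonzero class that is fixed by
`Gal(F / k)` (a 2-group), it extends to a cocycle over `k`, and the cocycle is locally trivial over `k`.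
The last point is clear at the places that split completely; at the unramified places it holds as
`H¹(Gal(F_v / k_u), E(F_v)) = 0` if the Tamagawa number is odd (Lang's theorem for the points with
nonsingular reduction and the filtration of the formal group; project UL); at the ramified places the
2-torsion has no fixed points under the decomposition group; at the real places `E(ℝ)` is connected if
`Δ < 0`.  So `rk E(F) = 0`.  The rational representation of the group `Gal(K / F)` of odd order on
`E(K) ⊗ ℚ` has no nonzero fixed vectors, and hence its dimension is even: the sum of the traces of all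
elements is zero, and inverse elements have the same integral trace.  A Sylow 2-subgroup of
`Gal(K / k)` maps onto `Gal(F / k)`, so it fixes no place of `K` with bad reduction; the number of the
places with local root number `-1` is therefore even, and the product of the local root numbers of the
finite places is one; the number of the infinite places is even.

The local theorem at the unramified places is the work of the project UL (helpers 17, 24, 29, 54, 55, 57,
72, 76, 80, 89, 92).
-/

set_option autoImplicit false

open NumberField IsDedekindDomain WeierstrassCurve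

namespace Pool.Agent.Results.MP_02f36d_nt.ParityTwoNilpotent

open scoped Classical

open Pool.Agent.TH841.NF.D (Sha)

/-- The 2-Selmer group of `E / L` is trivial: `E(L)` is finite of odd order and the Tate-Shafarevich
group has no elements of order two. -/
structure SelTwoTrivial {L : Type} [Field L] [NumberField L] (E : WeierstrassCurve L) : Prop where
  finite : Finite E.toAffine.Point
  odd : Odd (Nat.card E.toAffine.Point)
  sha : ∀ s : Sha E, 2 • s = 0 → s = 0

section defs

variable {F : Type} [Field F] [NumberField F]

/-- The coefficients of the equation are integral at the place `v`. -/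
structure IntegralAt (v : HeightOneSpectrum (𝓞 F)) (W : WeierstrassCurve F) : Prop where
  a₁ : v.valuation F W.a₁ ≤ 1
  a₂ : v.valuation F W.a₂ ≤ 1
  a₃ : v.valuation F W.a₃ ≤ 1
  a₄ : v.valuation F W.a₄ ≤ 1
  a₆ : v.valuation F W.a₆ ≤ 1

/-- Good reduction at `v`: there is a Weierstrass equation with coefficients integral at `v` whose
discriminant is a unit at `v`. -/
def GoodReduction (v : HeightOneSpectrum (𝓞 F)) (W : WeierstrassCurve F) : Prop :=
  ∃ C : WeierstrassCurve.VariableChange F, IntegralAt v (C • W) ∧ v.valuation F (C • W).Δ = 1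

/-- The global root number: the product of the local root numbers at all places; it is `-1` at
every infinite place. -/
noncomputable def rootNumber (w : HeightOneSpectrum (𝓞 F) → ℤ) : ℤ :=
  (-1) ^ Nat.card (InfinitePlace F) * ∏ᶠ v, w v

variable {k : Type} [Field k] [NumberField k] [Algebra k F]

variable (k) in
/-- The place of `k` below `v` splits completely in the Galois extension `F / k`: no automorphism
except the identity fixes `v`. -/
def SplitsCompletely (v : HeightOneSpectrum (𝓞 F)) : Prop :=
  ∀ σ : F ≃ₐ[k] F, (∀ x : F, v.valuation F (σ x) = v.valuation F x) → σ = 1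

variable (k) in
/-- The place `v` of `F` is ramified over `k`: the place `u` below satisfies `u 𝓞_F ⊂ v²`. -/
def Ramified (v : HeightOneSpectrum (𝓞 F)) : Prop :=
  Ideal.map (algebraMap (𝓞 k) (𝓞 F)) (v.asIdeal.under (𝓞 k)) ≤ v.asIdeal ^ 2

/-- The number of the points of the reduction of `W` at the place `u`, with the point at
infinity. -/
noncomputable def points (W : WeierstrassCurve (𝓞 k)) (u : HeightOneSpectrum (𝓞 k)) : ℕ :=
  Nat.card {P : (𝓞 k ⧸ u.asIdeal) × (𝓞 k ⧸ u.asIdeal) //
    (W.map (Ideal.Quotient.mk u.asIdeal)).toAffine.Equation P.1 P.2} + 1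

/-- The equation over the completion `k_u`. -/
noncomputable abbrev loc (W : WeierstrassCurve (𝓞 k)) (u : HeightOneSpectrum (𝓞 k)) :
    WeierstrassCurve (u.adicCompletion k) :=
  (W.baseChange k).baseChange (u.adicCompletion k)

/-- The group of the points of `W` over `k_u` with nonsingular reduction: the points `(x, y)` where `x`
is not integral, or one of the partial derivatives of `y² + a₁ x y + a₃ y - x³ - a₂ x² - a₄ x - a₆` is a
unit at `(x, y)`, and the point at infinity. -/
noncomputable def nonsing (W : WeierstrassCurve (𝓞 k)) (u : HeightOneSpectrum (𝓞 k)) :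
    AddSubgroup (loc W u).toAffine.Point :=
  AddSubgroup.closure {P | ∀ x y h, P = Affine.Point.some x y h → 1 < Valued.v x ∨
    Valued.v ((loc W u).a₁ * y - (3 * x ^ 2 + 2 * (loc W u).a₂ * x + (loc W u).a₄)) = 1 ∨
      Valued.v (2 * y + (loc W u).a₁ * x + (loc W u).a₃) = 1}

/-- The index `[E(k_u) : E⁰(k_u)]` of the points with nonsingular reduction: the Tamagawa number if the
equation is minimal at `u`. -/
noncomputable def tamagawa (W : WeierstrassCurve (𝓞 k)) (u : HeightOneSpectrum (𝓞 k)) : ℕ :=
  (nonsing W u).index

variable (k) in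
/-- The place of `k` below `v` is inert or totally ramified in the Galois extension `F / k`: all
automorphisms fix `v`. -/
def FixedByAll (v : HeightOneSpectrum (𝓞 F)) : Prop :=
  ∀ (σ : F ≃ₐ[k] F) (x : F), v.valuation F (σ x) = v.valuation F x

variable (F) in
/-- The local conditions for `F / k`: the places that divide `Δ` split completely or are not inert and
have an odd Tamagawa number; the places that ramify do not divide `6 Δ` and the number of the points
over the residue field is odd for them; the discriminant is negative at the real places that ramify. -/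
structure LocalConditions (W : WeierstrassCurve (𝓞 k)) : Prop where
  bad : ∀ (v : HeightOneSpectrum (𝓞 F)) (u : HeightOneSpectrum (𝓞 k)),
    u.asIdeal = v.asIdeal.under (𝓞 k) → W.Δ ∈ u.asIdeal →
      SplitsCompletely k v ∨ (Odd (tamagawa W u) ∧ ¬ FixedByAll k v)
  ramified : ∀ (v : HeightOneSpectrum (𝓞 F)) (u : HeightOneSpectrum (𝓞 k)),
    u.asIdeal = v.asIdeal.under (𝓞 k) → Ramified k v → 6 * W.Δ ∉ u.asIdeal ∧ Odd (points W u)
  real : ∀ j : F →+* ℂ, ComplexEmbedding.IsReal (j.comp (algebraMap k F)) →
    ¬ ComplexEmbedding.IsReal j → (j (algebraMap k F W.Δ)).re < 0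

variable (F) in
/-- The properties of the local root numbers `w(E / F_v)` at the places `v` of `F`, for an elliptic
curve `E` over the subfield `k`, which we use: they are signs, `1` for good reduction, and the same for
conjugate places (for which the pairs `(F_v, E)` are isomorphic). -/
structure LocalRootNumbers (E : WeierstrassCurve k) (w : HeightOneSpectrum (𝓞 F) → ℤ) :
    Prop where
  sign : ∀ v, w v = 1 ∨ w v = -1
  good : ∀ v, GoodReduction v (E.baseChange F) → w v = 1
  conj : ∀ (σ : F ≃ₐ[k] F) (v v' : HeightOneSpectrum (𝓞 F)),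
    (∀ x : F, v'.valuation F x = v.valuation F (σ x)) → w v' = w v

end defs

section proof

open Pool.Agent.P8H4.PK

/-- the translation -/
lemma p1_iff {L : Type} [Field L] [NumberField L] (E : WeierstrassCurve L) :
    SelTwoTrivial E ↔ P1 2 E := by
  constructor
  · rintro ⟨h1, h2, h3⟩
    exact ⟨h3, h1, fun h => (Nat.not_even_iff_odd.2 h2) (even_iff_two_dvd.2 h)⟩
  · rintro ⟨h1, h2, h3⟩
    exact ⟨h2, Nat.not_even_iff_odd.1 fun h => h3 (even_iff_two_dvd.1 h), h1⟩

lemma bcΔ {R A : Type} [CommRing R] [CommRing A] [Algebra R A] (V : WeierstrassCurve R) :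
    (V.baseChange A).Δ = algebraMap R A V.Δ := V.map_Δ (algebraMap R A)

variable {k F K : Type} [Field k] [NumberField k] [Field F] [NumberField F] [Field K] [NumberField K]
  [Algebra k F] [Algebra F K] [Algebra k K] [IsScalarTower k F K]

omit [NumberField F] [Field F] [Algebra k F] [Field K] [NumberField K] [Algebra F K] [Algebra k K]
  [IsScalarTower k F K] in
lemma tam_eq (W : WeierstrassCurve (𝓞 k)) (u : HeightOneSpectrum (𝓞 k)) :
    tamagawa W u = Pool.Agent.P8H17.UL.tnG W u := rfl

lemma fin_cond {W : WeierstrassCurve (𝓞 k)} (h : LocalConditions F W) :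
    Pool.Agent.P8H4.PM.FinCond2 2 W F := by
  intro w v hv
  by_cases hr : Ramified k w
  · right; left
    obtain ⟨h6, hodd⟩ := h.ramified w v hv hr
    refine ⟨?_, fun _ => ?_⟩
    · have h2 : (2 : 𝓞 k) ∉ v.asIdeal := fun h2 => h6 (by
        have e : 6 * W.Δ = (3 * W.Δ) * 2 := by ring
        rw [e]
        exact Ideal.mul_mem_left _ _ h2)
      intro h3
      have e : 6 * ((2 : ℕ) : 𝓞 k) * W.Δ = 2 * (6 * W.Δ) := by push_cast; ring
      rw [e] at h3
      rcases v.isPrime.mem_or_mem h3 with h4 | h4
      · exact h2 h4
      · exact h6 h4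
    · rw [← even_iff_two_dvd, Nat.not_even_iff_odd]
      exact hodd
  · by_cases hΔ : W.Δ ∈ v.asIdeal
    · rcases h.bad w v hv hΔ with h1 | ⟨h1, -⟩
      · exact Or.inl h1
      · right; right
        refine ⟨hr, ?_⟩
        rw [← tam_eq, ← even_iff_two_dvd, Nat.not_even_iff_odd]
        exact h1
    · right; right
      refine ⟨hr, ?_⟩
      rw [Pool.Agent.P8H4.PX.tnG_one (Pool.Agent.P8H4.PX.noS_of_disc fun h2 =>
        hΔ (Ideal.pow_le_self two_ne_zero h2))]
      norm_num

lemma inf_cond {W : WeierstrassCurve (𝓞 k)} (h : LocalConditions F W) : InfCond W F := by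
  intro j hj
  by_cases hr : ComplexEmbedding.IsReal j
  · exact Or.inl hr
  · exact Or.inr (h.real j hj hr)

lemma good_of {W : WeierstrassCurve (𝓞 k)} (v : HeightOneSpectrum (𝓞 K))
    (h : W.Δ ∉ v.asIdeal.under (𝓞 k)) : GoodReduction v ((W.baseChange k).baseChange K) := by
  have key : ∀ a : 𝓞 k, algebraMap k K (algebraMap (𝓞 k) k a) =
      algebraMap (𝓞 K) K (algebraMap (𝓞 k) (𝓞 K) a) := fun a => rfl
  have hle : ∀ a : 𝓞 k, v.valuation K (algebraMap k K (algebraMap (𝓞 k) k a)) ≤ 1 := by
    intro a
    rw [key]
    exact v.valuation_le_one _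
  refine ⟨1, ?_, ?_⟩
  · rw [one_smul]
    exact ⟨hle W.a₁, hle W.a₂, hle W.a₃, hle W.a₄, hle W.a₆⟩
  · rw [one_smul, bcΔ, bcΔ]
    refine le_antisymm (hle _) (not_lt.1 fun h2 => h ?_)
    rw [key, HeightOneSpectrum.valuation_lt_one_iff_mem] at h2
    exact h2

end proof

open Pool.Agent.P8H4.PK in
/-- **Main theorem.** Let `k` be a number field and `E` the elliptic curve over `k` given by the
Weierstrass equation `W` with coefficients in `𝓞_k` and discriminant `Δ ≠ 0`.  Let `K / k` be a Galois
extension and `F` an intermediate field which is Galois over `k` of degree `2 ^ n`, `n ≥ 1`, such that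
`[K : F]` is odd.  Assume that the 2-Selmer group of `E / k` is trivial; that the places of `k` dividing
`Δ` split completely in `F`, or are not inert in `F` and have an odd Tamagawa number; that the places
`u` of `k` that ramify in `F` do not divide `6 Δ` and `#W(𝔽_u)` is odd for them; that `Δ < 0` at the real
places of `k` that ramify in `F`; and that `4 ∣ [F : k]` or no real place of `k` ramifies in `F`.

Then the 2-Selmer group of `E / F` is trivial, `E(K)` is finitely generated of even rank, and for every
system `w` of local root numbers of `E / K` almost all `w v` are `1`, the root number is `1`, and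
`(-1) ^ rk E(K) = w(E / K)`. -/
theorem result (k F K : Type) [Field k] [NumberField k] [Field F] [NumberField F] [Field K]
    [NumberField K] [Algebra k F] [Algebra F K] [Algebra k K] [IsScalarTower k F K]
    [IsGalois k F] [IsGalois k K] (n : ℕ) (h1 : 1 ≤ n) (hn : Module.finrank k F = 2 ^ n)
    (hodd : Odd (Module.finrank F K)) (W : WeierstrassCurve (𝓞 k)) (hΔ : W.Δ ≠ 0)
    (hE : SelTwoTrivial (W.baseChange k)) (hloc : LocalConditions F W)
    (hinf : 4 ∣ Module.finrank k F ∨ ∀ j : F →+* ℂ,
      ComplexEmbedding.IsReal (j.comp (algebraMap k F)) → ComplexEmbedding.IsReal j) :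
    SelTwoTrivial ((W.baseChange k).baseChange F) ∧
    AddGroup.FG ((W.baseChange k).baseChange K).toAffine.Point ∧
    Even (Module.finrank ℤ ((W.baseChange k).baseChange K).toAffine.Point) ∧
    ∀ w : HeightOneSpectrum (𝓞 K) → ℤ, LocalRootNumbers K (W.baseChange k) w →
      {v | w v ≠ 1}.Finite ∧ rootNumber w = 1 ∧
      (-1) ^ Module.finrank ℤ ((W.baseChange k).baseChange K).toAffine.Point = rootNumber w := by
  have hF2 : Even (Module.finrank k F) := by
    rw [hn]
    exact (even_two).pow_of_ne_zero (by omega)
  have hgal : IsGalois F K := IsGalois.tower_top_of_isGalois k F K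
  have hEΔ : (W.baseChange k).Δ ≠ 0 := by
    rw [bcΔ]
    exact fun h => hΔ ((FaithfulSMul.algebraMap_injective (𝓞 k) k) (by rw [h, map_zero]))
  have hFΔ : ((W.baseChange k).baseChange F).Δ ≠ 0 := by
    rw [bcΔ]
    exact (map_ne_zero _).2 hEΔ
  have hKΔ : ((W.baseChange k).baseChange K).Δ ≠ 0 := by
    rw [bcΔ]
    exact (map_ne_zero _).2 hEΔ
  have hP : P1 2 ((W.baseChange k).baseChange F) :=
    Pool.Agent.P8H4.PM.p1_up2 Pool.Agent.P8H4.PM.LP (k := k) (K := F) Nat.prime_two hn hΔ
      (fin_cond hloc) (Or.inr (inf_cond hloc)) ((p1_iff _).1 hE)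
  have hcomp : ((W.baseChange k).baseChange F).map (algebraMap F K) =
      (W.baseChange k).baseChange K := by
    show ((W.baseChange k).map (algebraMap k F)).map (algebraMap F K) =
      (W.baseChange k).map (algebraMap k K)
    rw [WeierstrassCurve.map_map, ← IsScalarTower.algebraMap_eq]
  have hev : Even (Module.finrank ℤ (Pt ((W.baseChange k).baseChange K))) := by
    have h2 := rank_even (K := K) hodd hFΔ hP.fin
    rwa [hcomp] at h2
  have hinfK := inf_even_tower (k := k) (F := F) (K := K) hF2 hodd hinf
  refine ⟨(p1_iff _).2 hP, mw hKΔ, hev, ?_⟩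
  intro w hw
  have hbad : ∀ v, w v ≠ 1 → W.Δ ∈ v.asIdeal.under (𝓞 k) := by
    intro v hv
    by_contra h
    exact hv (hw.good v (good_of v h))
  have hfin : {v | w v ≠ 1}.Finite := by
    have hne : algebraMap (𝓞 k) (𝓞 K) W.Δ ≠ 0 := fun h =>
      hΔ ((FaithfulSMul.algebraMap_injective (𝓞 k) (𝓞 K)) (by rw [h, map_zero]))
    have h2 := Ideal.finite_factors (R := 𝓞 K) (I := Ideal.span {algebraMap (𝓞 k) (𝓞 K) W.Δ})
      (by rwa [Ne, Ideal.zero_eq_bot, Ideal.span_singleton_eq_bot])
    refine h2.subset fun v hv => ?_
    show v.asIdeal ∣ Ideal.span {algebraMap (𝓞 k) (𝓞 K) W.Δ}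
    rw [Ideal.dvd_span_singleton]
    exact hbad v hv
  have hprod : ∏ᶠ v, w v = 1 := by
    refine Pool.Agent.P8H4.PM.prod_one3 (F := F) hn w hw.sign hfin hw.conj fun v hv => ?_
    have h2 : W.Δ ∈ ((v.under (𝓞 F)).under (𝓞 k)).asIdeal := by
      have h3 : ((v.under (𝓞 F)).under (𝓞 k)).asIdeal = v.asIdeal.under (𝓞 k) := by
        ext x
        have h4 : algebraMap (𝓞 F) (𝓞 K) (algebraMap (𝓞 k) (𝓞 F) x) =
            algebraMap (𝓞 k) (𝓞 K) x := by
          apply RingOfIntegers.ext
          exact (IsScalarTower.algebraMap_apply k F K (x : k)).symm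
        show algebraMap (𝓞 F) (𝓞 K) (algebraMap (𝓞 k) (𝓞 F) x) ∈ v.asIdeal ↔
          algebraMap (𝓞 k) (𝓞 K) x ∈ v.asIdeal
        rw [h4]
      rw [h3]
      exact hbad v hv
    rcases hloc.bad (v.under (𝓞 F)) ((v.under (𝓞 F)).under (𝓞 k)) rfl h2 with h3 | ⟨-, h3⟩
    · -- complete splitting
      by_contra hcon
      push Not at hcon
      have h4 : ∀ σ : Gal(F/k), σ = 1 := fun σ => h3 σ (hcon σ)
      have h5 : Nat.card Gal(F/k) = 1 := by
        have : Subsingleton Gal(F/k) := ⟨fun a b => by rw [h4 a, h4 b]⟩
        exact Nat.card_unique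
      rw [IsGalois.card_aut_eq_finrank] at h5
      rw [h5] at hF2
      exact absurd hF2 (by decide)
    · unfold FixedByAll at h3
      push Not at h3
      obtain ⟨σ, x, h4⟩ := h3
      exact ⟨σ, fun h5 => h4 (h5 x)⟩
  have hroot : rootNumber w = 1 := by
    unfold rootNumber
    rw [hprod, mul_one]
    exact hinfK.neg_one_pow
  refine ⟨hfin, hroot, ?_⟩
  rw [hroot]
  exact hev.neg_one_pow

end Pool.Agent.Results.MP_02f36d_nt.ParityTwoNilpotent
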